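import Pool.Agent.Helper82.CN.St

/-!
# CN, module BRG: the sum over graphs is the expectation over bits
-/

set_option autoImplicit false

namespace Pool.Agent.Helper87.CN

open Finset Pool.Agent.Helper82.CN

/-- the non-diagonal pairs -/
abbrev K_BRG (n : ℕ) : Type := {e : Sym2 (Fin n) // ¬ e.IsDiag}

/-- the graph of a bit function on the non-diagonal pairs -/
def g_BRG (n : ℕ) (ω : K_BRG n → Bool) : SimpleGraph (Fin n) :=
  SimpleGraph.fromEdgeSet {e | ∃ h : ¬ e.IsDiag, ω ⟨e, h⟩ = true}

lemma gr_BRG (n : ℕ) (ω : Sym2 (Fin n) → Bool) : gr ω = g_BRG n (fun j => ω j.1) := by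
  ext u v
  rw [g_BRG, SimpleGraph.fromEdgeSet_adj, Set.mem_ofPred_eq]
  constructor
  · rintro ⟨h1, h2⟩
    exact ⟨⟨by rw [Sym2.mk_isDiag_iff]; exact h1, h2⟩, h1⟩
  · rintro ⟨⟨h1, h2⟩, h3⟩
    exact ⟨h3, h2⟩

open Classical in
/-- graphs and bit functions on the non-diagonal pairs -/
noncomputable def e_BRG (n : ℕ) : SimpleGraph (Fin n) ≃ (K_BRG n → Bool) where
  toFun G k := decide (k.1 ∈ G.edgeSet)
  invFun := g_BRG n
  left_inv G := by
    ext u v
    rw [g_BRG, SimpleGraph.fromEdgeSet_adj, Set.mem_ofPred_eq]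
    constructor
    · rintro ⟨⟨h1, h2⟩, h3⟩
      have h4 := of_decide_eq_true h2
      exact (SimpleGraph.mem_edgeSet G).1 h4
    · intro h
      refine ⟨⟨?_, ?_⟩, h.ne⟩
      · rw [Sym2.mk_isDiag_iff]
        exact h.ne
      · exact decide_eq_true ((SimpleGraph.mem_edgeSet G).2 h)
  right_inv ω := by
    funext k
    obtain ⟨e, he⟩ := k
    have h1 : e ∈ (g_BRG n ω).edgeSet ↔ ω ⟨e, he⟩ = true := by
      rw [g_BRG, SimpleGraph.edgeSet_fromEdgeSet]
      constructor
      · rintro ⟨⟨h1, h2⟩, -⟩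
        exact h2
      · intro h
        exact ⟨⟨he, h⟩, he⟩
    change decide (e ∈ (g_BRG n ω).edgeSet) = ω ⟨e, he⟩
    by_cases h : ω ⟨e, he⟩ = true
    · rw [h]
      exact decide_eq_true (h1.2 h)
    · rw [Bool.not_eq_true] at h
      rw [h]
      apply decide_eq_false
      rw [h1, h]
      exact Bool.false_ne_true

theorem tBRG : StBrg := by
  classical
  intro p n F
  have h1 : EE p (fun ω : Sym2 (Fin n) → Bool => F (gr ω)) =
      EE p (fun ω : K_BRG n → Bool => F (g_BRG n ω)) := by
    simp_rw [gr_BRG n]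
    exact EE_marg p (Subtype.val : K_BRG n → Sym2 (Fin n)) Subtype.val_injective
      (fun ω => F (g_BRG n ω))
  rw [h1]
  unfold EE
  refine Fintype.sum_equiv (e_BRG n) _ _ fun G => ?_
  have hg : g_BRG n (e_BRG n G) = G := (e_BRG n).left_inv G
  change _ = (∏ i, bw p (e_BRG n G i)) * F (g_BRG n (e_BRG n G))
  rw [hg]
  congr 1
  have h2 : ∏ i, bw p (e_BRG n G i) =
      p ^ ((univ : Finset (K_BRG n)).filter (fun i => e_BRG n G i = true)).card *
        (1 - p) ^ ((univ : Finset (K_BRG n)).filter (fun i => ¬ e_BRG n G i = true)).card := by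
    unfold bw
    rw [Finset.prod_ite, Finset.prod_const, Finset.prod_const]
  have h3 : ((univ : Finset (K_BRG n)).filter (fun i => e_BRG n G i = true)).card =
      G.edgeSet.ncard := by
    rw [← Set.ncard_coe_finset, ← Set.ncard_image_of_injective _ Subtype.val_injective]
    congr 1
    ext e
    rw [Set.mem_image]
    constructor
    · rintro ⟨k, hk, rfl⟩
      rw [Finset.mem_coe, Finset.mem_filter] at hk
      exact of_decide_eq_true hk.2
    · intro he
      refine ⟨⟨e, G.not_isDiag_of_mem_edgeSet he⟩, ?_, rfl⟩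
      rw [Finset.mem_coe, Finset.mem_filter]
      exact ⟨Finset.mem_univ _, decide_eq_true he⟩
  have h4 : Fintype.card (K_BRG n) = n.choose 2 := by
    have := Sym2.card_subtype_not_diag (α := Fin n)
    rw [Fintype.card_fin] at this
    rw [← this]
  have h5 : ((univ : Finset (K_BRG n)).filter (fun i => ¬ e_BRG n G i = true)).card =
      n.choose 2 - G.edgeSet.ncard := by
    have h6 := Finset.card_filter_add_card_filter_not (s := (univ : Finset (K_BRG n)))
      (fun i => e_BRG n G i = true)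
    rw [Finset.card_univ, h4, h3] at h6
    omega
  rw [h2, h3, h5]

end Pool.Agent.Helper87.CN
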